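import Pool.Agent.Helper76.ND.StC

set_option autoImplicit false

namespace Pool.Agent.Helper79.ND

open Pool.Agent.Helper76.ND Finset

theorem qs_nonneg_Bz : ∀ n s : ℕ, 0 ≤ qs n s
  | 0, 0 => by simp [qs]
  | 0, _ + 1 => by simp [qs]
  | _ + 1, 0 => by simp [qs]
  | n + 1, s + 1 => by
    simp only [qs]
    positivity

theorem hBz (hGen : StGen) : StBz := by
  intro J θ
  set z : ℝ := √(1 / 2) with hz
  set c : ℝ := √27 with hc
  have hz2 : z ^ 2 = 1 / 2 := Real.sq_sqrt (by norm_num)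
  have hc2 : c ^ 2 = 27 := Real.sq_sqrt (by norm_num)
  have hz0 : 0 < z := Real.sqrt_pos.2 (by norm_num)
  have hc0 : 0 < c := Real.sqrt_pos.2 (by norm_num)
  have hz1 : z ≤ 70711 / 100000 := by
    rw [hz, Real.sqrt_le_left (by norm_num)]
    norm_num
  have hc1 : c ≤ 51962 / 10000 := by
    rw [hc, Real.sqrt_le_left (by norm_num)]
    norm_num
  set w : ℝ := z / (2 - z) with hw
  have hw0 : 0 ≤ w := div_nonneg hz0.le (by linarith)
  have hw1 : w ≤ 54693 / 100000 := by
    rw [hw, div_le_iff₀ (by linarith)]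
    linarith
  set r : ℝ := c * w ^ 3 with hr
  have hr0 : 0 ≤ r := by positivity
  have hr1 : r ≤ 851 / 1000 := by
    have h1 : w ^ 3 ≤ (54693 / 100000 : ℝ) ^ 3 := pow_le_pow_left₀ hw0 hw1 3
    have h2 : c * w ^ 3 ≤ (51962 / 10000) * (54693 / 100000 : ℝ) ^ 3 :=
      mul_le_mul hc1 h1 (by positivity) (by norm_num)
    refine h2.trans ?_
    norm_num
  have hinner : ∀ j : ℕ, ∑ B ∈ range (θ + 1),
      (if 10 ^ 8 * 2 ^ B < 27 ^ j then qs (3 * j) B else 0) ≤ (1 / 10000) * r ^ j := by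
    intro j
    have h1 : ∀ B ∈ range (θ + 1), (if 10 ^ 8 * 2 ^ B < 27 ^ j then qs (3 * j) B else 0) ≤
        (1 / 10000) * c ^ j * (qs (3 * j) B * z ^ B) := by
      intro B _
      have hq := qs_nonneg_Bz (3 * j) B
      split_ifs with h
      · have h2 : (10 : ℝ) ^ 8 * 2 ^ B < 27 ^ j := by exact_mod_cast h
        have h3 : 10000 ≤ c ^ j * z ^ B := by
          have h4 : (10000 : ℝ) ^ 2 ≤ (c ^ j * z ^ B) ^ 2 := by
            have e1 : (c ^ j * z ^ B) ^ 2 = 27 ^ j * (1 / 2) ^ B := by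
              rw [mul_pow, ← pow_mul, ← pow_mul, mul_comm j 2, mul_comm B 2, pow_mul, pow_mul,
                hc2, hz2]
            rw [e1, one_div, inv_pow, ← div_eq_mul_inv, le_div_iff₀ (by positivity)]
            have : (10000 : ℝ) ^ 2 = 10 ^ 8 := by norm_num
            rw [this]
            exact h2.le
          exact (sq_le_sq₀ (by norm_num) (by positivity)).1 h4
        calc qs (3 * j) B = (1 / 10000) * (qs (3 * j) B * 10000) := by ring
          _ ≤ (1 / 10000) * (qs (3 * j) B * (c ^ j * z ^ B)) := by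
              refine mul_le_mul_of_nonneg_left ?_ (by norm_num)
              exact mul_le_mul_of_nonneg_left h3 hq
          _ = (1 / 10000) * c ^ j * (qs (3 * j) B * z ^ B) := by ring
      · positivity
    refine (Finset.sum_le_sum h1).trans ?_
    rw [← Finset.mul_sum]
    have h5 := hGen (3 * j) (θ + 1) z hz0 (by linarith)
    calc (1 / 10000) * c ^ j * ∑ B ∈ range (θ + 1), qs (3 * j) B * z ^ B
        ≤ (1 / 10000) * c ^ j * w ^ (3 * j) := mul_le_mul_of_nonneg_left h5 (by positivity)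
      _ = (1 / 10000) * r ^ j := by
          rw [hr, mul_pow, ← pow_mul]
          ring
  have hgeo : ∑ j ∈ range J, r ^ j ≤ 1 / (1 - r) := by
    have h1 : (∑ j ∈ range J, r ^ j) * (1 - r) = 1 - r ^ J := geom_sum_mul_neg r J
    rw [le_div_iff₀ (by linarith), h1]
    have : 0 ≤ r ^ J := pow_nonneg hr0 J
    linarith
  calc ∑ j ∈ range J, ∑ B ∈ range (θ + 1),
      (if 10 ^ 8 * 2 ^ B < 27 ^ j then qs (3 * j) B else 0)
      ≤ ∑ j ∈ range J, (1 / 10000) * r ^ j := Finset.sum_le_sum fun j _ => hinner j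
    _ = (1 / 10000) * ∑ j ∈ range J, r ^ j := by rw [Finset.mul_sum]
    _ ≤ (1 / 10000) * (1 / (1 - r)) := mul_le_mul_of_nonneg_left hgeo (by norm_num)
    _ ≤ (1 / 10000) * (1000 / 149) := by
        refine mul_le_mul_of_nonneg_left ?_ (by norm_num)
        rw [div_le_div_iff₀ (by linarith) (by norm_num)]
        linarith
    _ ≤ 7 / 10000 := by norm_num

end Pool.Agent.Helper79.ND
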